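import Mathlib
import Pool.Agent.Lib.helper11.QI

set_option autoImplicit false
open Matrix
open scoped ComplexOrder MatrixOrder

namespace Pool.Agent.Results.MP_26c808_an.Fail
open Pool.Agent.QI

/-- `|X|^p`, where `|X| = (XᴴX)^{1/2}`, by the continuous functional calculus -/
noncomputable def absPow {n : ℕ} (X : Matrix (Fin n) (Fin n) ℂ) (p : ℝ) :
    Matrix (Fin n) (Fin n) ℂ :=
  CFC.rpow (CFC.sqrt (Xᴴ * X)) p

/-- eigenvalues of a Hermitian matrix in decreasing order -/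
noncomputable def eig {n : ℕ} {X : Matrix (Fin n) (Fin n) ℂ} (h : X.IsHermitian) : Fin n → ℝ :=
  fun i => h.eigenvalues₀ (Fin.cast (Fintype.card_fin n).symm i)

/-- `x ≻ y` for vectors with decreasing entries -/
def Maj {n : ℕ} (x y : Fin n → ℝ) : Prop :=
  (∀ k : ℕ, 1 ≤ k → k + 1 ≤ n →
    ∑ i ∈ Finset.univ.filter (fun i : Fin n => i.val < k), y i ≤
      ∑ i ∈ Finset.univ.filter (fun i : Fin n => i.val < k), x i) ∧
  ∑ i, x i = ∑ i, y i

lemma absPow_four {n : ℕ} (X : Matrix (Fin n) (Fin n) ℂ) :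
    absPow X 4 = (Xᴴ * X) * (Xᴴ * X) := by
  have h0 : (0 : Matrix (Fin n) (Fin n) ℂ) ≤ Xᴴ * X :=
    (Matrix.posSemidef_conjTranspose_mul_self X).nonneg
  have h1 : absPow X 4 = (CFC.sqrt (Xᴴ * X)) ^ (4 : ℕ) := by
    have := CFC.rpow_natCast (CFC.sqrt (Xᴴ * X)) 4 (CFC.sqrt_nonneg _)
    simpa [absPow] using this
  have h2 := CFC.sqrt_mul_sqrt_self (Xᴴ * X) h0
  rw [h1]
  conv_rhs => rw [← h2]
  simp only [pow_succ, pow_zero, one_mul, mul_assoc]

lemma eig_ge {n : ℕ} {X : Matrix (Fin n) (Fin n) ℂ} (h : X.IsHermitian) (c : ℝ)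
    (hc : (X - (c : ℂ) • 1).PosSemidef) (i : Fin n) : c ≤ eig h i := by
  obtain ⟨j, hj⟩ : ∃ j, eig h i = h.eigenvalues j := by
    refine ⟨Fintype.equivOfCardEq (Fintype.card_fin _) (Fin.cast (Fintype.card_fin n).symm i), ?_⟩
    simp [eig, Matrix.IsHermitian.eigenvalues]
  rw [hj]
  have hv := h.mulVec_eigenvectorBasis j
  set v : Fin n → ℂ := (h.eigenvectorBasis j).ofLp with hvdef
  have h1 := hc.dotProduct_mulVec_nonneg v
  have hn : star v ⬝ᵥ v = 1 := by
    have := (h.eigenvectorBasis.orthonormal.1 j)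
    have h2 : inner ℂ (h.eigenvectorBasis j) (h.eigenvectorBasis j) = 1 := by
      rw [inner_self_eq_norm_sq_to_K, this]; simp
    rw [EuclideanSpace.inner_eq_star_dotProduct] at h2
    rw [dotProduct_comm]; exact h2
  rw [Matrix.sub_mulVec, hv, Matrix.smul_mulVec, Matrix.one_mulVec, dotProduct_sub,
    dotProduct_smul, dotProduct_smul, hn] at h1
  have := (Complex.nonneg_iff.1 h1).1
  simpa using this

lemma psd_of_eig {n : ℕ} {X : Matrix (Fin n) (Fin n) ℂ} (h : X.IsHermitian) (c : ℝ)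
    (hc : ∀ i, c ≤ eig h i) : (X - (c : ℂ) • 1).PosSemidef := by
  have hc' : ∀ j, c ≤ h.eigenvalues j := by
    intro j
    have := hc (Fin.cast (Fintype.card_fin n) ((Fintype.equivOfCardEq (Fintype.card_fin _)).symm j))
    simpa [eig, Matrix.IsHermitian.eigenvalues] using this
  have hs := h.spectral_theorem
  set U : Matrix (Fin n) (Fin n) ℂ := (h.eigenvectorUnitary : Matrix (Fin n) (Fin n) ℂ) with hU
  have hUU : U * Uᴴ = 1 := by
    have := Matrix.mem_unitaryGroup_iff.1 h.eigenvectorUnitary.2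
    simpa [hU, Matrix.star_eq_conjTranspose] using this
  have e : X - (c : ℂ) • 1 =
      U * Matrix.diagonal (fun j => ((h.eigenvalues j - c : ℝ) : ℂ)) * Uᴴ := by
    have e1 : Matrix.diagonal (fun j => ((h.eigenvalues j - c : ℝ) : ℂ)) =
        Matrix.diagonal (RCLike.ofReal ∘ h.eigenvalues) - (c : ℂ) • 1 := by
      ext i j
      by_cases hij : i = j <;> simp [Matrix.diagonal, Matrix.one_apply, hij]
    rw [e1, mul_sub, sub_mul, Matrix.mul_smul, mul_one, Matrix.smul_mul, hUU]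
    congr 1
  rw [e]
  refine Matrix.PosSemidef.mul_mul_conjTranspose_same (Matrix.PosSemidef.diagonal ?_) _
  intro j
  exact Complex.zero_le_real.2 (sub_nonneg.2 (hc' j))

def Aq : Fin 3 → Fin 3 → ℚ := ![![1, 0, 0], ![0, 2, 0], ![0, 0, 4]]
def Bq : Fin 3 → Fin 3 → ℚ := ![![8/5, 0, 2/5], ![0, 2/5, 1/5], ![2/5, 1/5, 1/5]]
def Eq' : Fin 3 → Fin 3 → ℚ :=
  ![![10449/625, 416/125, 11904/625], ![416/125, 3492/625, 3072/625],
    ![11904/625, 3072/625, 24976/625]]
def Gq : Fin 3 → Fin 3 → ℚ :=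
  ![![20337/625, 6272/625, 8064/625], ![6272/625, 5124/625, 576/125],
    ![8064/625, 576/125, 13456/625]]

lemma hE : cq Aq ^ 2 + absPow (cq Bq * cq Aq) 4 = cq Eq' := by
  rw [absPow_four, pow_two]
  ext i j
  fin_cases i <;> fin_cases j <;>
    simp [cq, Aq, Bq, Eq', Matrix.mul_apply, Fin.sum_univ_three, Matrix.conjTranspose_apply] <;>
    norm_num

lemma hG : cq Aq ^ 2 + absPow (cq Aq * cq Bq) 4 = cq Gq := by
  rw [absPow_four, pow_two]
  ext i j
  fin_cases i <;> fin_cases j <;>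
    simp [cq, Aq, Bq, Gq, Matrix.mul_apply, Fin.sum_univ_three, Matrix.conjTranspose_apply] <;>
    norm_num

lemma hEc : (cq Eq' - (((231 / 50 : ℝ)) : ℂ) • 1).PosSemidef := by
  have := psd_of_ldl (fun i j => Eq' i j - if i = j then 231 / 50 else 0)
    ![![1, 0, 0], ![4160/15123, 1, 0], ![7936/5041, -6125568/978107, 1]]
    ![15123/1250, 978107/18903750, 162740899/48905350] (by decide +kernel) (by decide +kernel)
  convert this using 1
  ext i j
  by_cases hij : i = j <;> simp [cq, Matrix.one_apply, hij]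

theorem result : ∃ (n : ℕ) (A B : Matrix (Fin n) (Fin n) ℂ) (p : ℝ),
    A.PosSemidef ∧ B.PosSemidef ∧ 0 < p ∧
    ∃ (h₁ : (A ^ 2 + absPow (B * A) p).IsHermitian) (h₂ : (A ^ 2 + absPow (A * B) p).IsHermitian),
      ¬ Maj (eig h₁) (eig h₂) := by
  have hA : (cq Aq).PosSemidef :=
    psd_of_ldl Aq ![![1, 0, 0], ![0, 1, 0], ![0, 0, 1]] ![1, 2, 4] (by decide +kernel)
      (by decide +kernel)
  have hB : (cq Bq).PosSemidef :=
    psd_of_ldl Bq ![![2, -2], ![-1, -1], ![0, -1]] ![1/5, 1/5] (by decide +kernel)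
      (by decide +kernel)
  have h₁ : (cq Aq ^ 2 + absPow (cq Bq * cq Aq) 4).IsHermitian := by
    rw [hE]; ext i j
    fin_cases i <;> fin_cases j <;> simp [cq, Eq', Matrix.conjTranspose_apply]
  have h₂ : (cq Aq ^ 2 + absPow (cq Aq * cq Bq) 4).IsHermitian := by
    rw [hG]; ext i j
    fin_cases i <;> fin_cases j <;> simp [cq, Gq, Matrix.conjTranspose_apply]
  refine ⟨3, cq Aq, cq Bq, 4, hA, hB, by norm_num, h₁, h₂, ?_⟩
  rintro ⟨hk, ht⟩
  have h2 := hk 2 (by norm_num) (by norm_num)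
  simp only [Finset.sum_filter, Fin.sum_univ_three] at h2 ht
  norm_num at h2
  have hx : (231 / 50 : ℝ) ≤ eig h₁ 2 := eig_ge h₁ _ (by rw [hE]; exact hEc) 2
  have hy : (231 / 50 : ℝ) ≤ eig h₂ 2 := by linarith
  have hall : ∀ i, (231 / 50 : ℝ) ≤ eig h₂ i := by
    intro i
    refine hy.trans (h₂.eigenvalues₀_antitone ?_)
    have := i.isLt
    simp only [Fin.le_def, Fin.val_cast]
    omega
  have hp := (psd_of_eig h₂ _ hall).dotProduct_mulVec_nonneg ![-1, 3, 0]
  rw [hG] at hp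
  have := (Complex.nonneg_iff.1 hp).1
  simp [cq, Gq, dotProduct, Matrix.mulVec, Fin.sum_univ_three, Matrix.one_apply] at this
  norm_num at this

end Pool.Agent.Results.MP_26c808_an.Fail
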